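import Pool.Agent.LibCCS.Defs

/-! Row R1: existence and uniqueness of real states; elementary bounds. -/

namespace Pool.Agent.LibCCS

open Pool.Agent.LibCC

variable {n m : ℕ}

theorem chain_bound (C : CompCircuit n m) (K : Fin m × Bool → Bool) (z : Arc n m → ℝ)
    (w : Fin m → ℝ) (hw : ∀ g, 0 ≤ w g) {δ : ℝ}
    (hs : ∀ i, z (Sum.inl i) ≤ δ) (hc : ∀ a, K a = true → z (Sum.inr a) ≤ δ)
    (ho : ∀ a, K a = false → z (Sum.inr a) ≤
      max (z (C.inp (a.1, false))) (z (C.inp (a.1, true))) + w a.1) (e : Arc n m) :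
    z e ≤ δ + ∑ g, w g := by
  classical
  obtain ⟨ord, hord⟩ := C.acyclic
  let F : ℕ → ℝ := fun k => ∑ g ∈ Finset.univ.filter (fun g => ord g < k), w g
  have hF0 : ∀ k, 0 ≤ F k := fun k => Finset.sum_nonneg (fun g _ => hw g)
  have hFm : ∀ k l, k ≤ l → F k ≤ F l := by
    intro k l hkl
    apply Finset.sum_le_sum_of_subset_of_nonneg
    · intro g hg
      rw [Finset.mem_filter] at hg ⊢
      exact ⟨hg.1, lt_of_lt_of_le hg.2 hkl⟩
    · intro g _ _
      exact hw g
  have hFs : ∀ g, F (ord g) + w g ≤ F (ord g + 1) := by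
    intro g
    have hn : g ∉ Finset.univ.filter (fun h => ord h < ord g) := by
      simp
    have h1 : F (ord g) + w g = ∑ h ∈ insert g (Finset.univ.filter (fun h => ord h < ord g)), w h := by
      rw [Finset.sum_insert hn]
      ring
    rw [h1]
    apply Finset.sum_le_sum_of_subset_of_nonneg
    · intro h hh
      rw [Finset.mem_insert] at hh
      rw [Finset.mem_filter]
      refine ⟨Finset.mem_univ _, ?_⟩
      rcases hh with rfl | hh
      · omega
      · have := (Finset.mem_filter.1 hh).2
        omega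
    · intro h _ _
      exact hw h
  have key : ∀ k : ℕ, ∀ a : Fin m × Bool, ord a.1 = k → z (Sum.inr a) ≤ δ + F (k + 1) := by
    intro k
    induction k using Nat.strong_induction_on with
    | _ k ih =>
      intro a hak
      cases hK : K a
      · have hin : ∀ b, z (C.inp (a.1, b)) ≤ δ + F (ord a.1) := by
          intro b
          rcases hb : C.inp (a.1, b) with i | ⟨h, c⟩
          · have := hs i
            have := hF0 (ord a.1)
            linarith
          · have h1 : ord h < ord a.1 := hord a.1 b h c hb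
            have h2 := ih (ord h) (by omega) (h, c) rfl
            have h3 := hFm (ord h + 1) (ord a.1) h1
            linarith
        have h1 := ho a hK
        have h2 : max (z (C.inp (a.1, false))) (z (C.inp (a.1, true))) ≤ δ + F (ord a.1) :=
          max_le (hin false) (hin true)
        have h3 := hFs a.1
        rw [hak] at h3 h2
        linarith
      · have := hc a hK
        have := hF0 (k + 1)
        linarith
  have hall : ∀ k, F k ≤ ∑ g, w g := by
    intro k
    apply Finset.sum_le_sum_of_subset_of_nonneg (Finset.filter_subset _ _)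
    intro g _ _
    exact hw g
  rcases e with i | a
  · have h1 := hs i
    have h2 : 0 ≤ ∑ g, w g := Finset.sum_nonneg (fun g _ => hw g)
    linarith
  · have h1 := key (ord a.1) a rfl
    have h2 := hall (ord a.1 + 1)
    linarith

/-- For arbitrary gate functions there is a state (evaluate the comparators in order). -/
theorem exists_isX (C : CompCircuit n m) (K : Fin m × Bool → Bool) (κ : Arc n m → ℝ)
    (f : Fin m → ℝ → ℝ) : ∃ x, IsX C K κ (fun g => f g (Dx C x g)) x := by
  classical
  obtain ⟨ord, hord⟩ := C.acyclic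
  have key : ∀ k : ℕ, ∃ x : Arc n m → ℝ, (∀ i, x (Sum.inl i) = κ (Sum.inl i)) ∧
      (∀ a, K a = true → x (Sum.inr a) = κ (Sum.inr a)) ∧
      (∀ a : Fin m × Bool, K a = false → ord a.1 < k →
        x (Sum.inr a) = (Sx C x a.1 + sg a.2 * f a.1 (Dx C x a.1)) / 2) := by
    intro k
    induction k with
    | zero => exact ⟨κ, fun _ => rfl, fun _ _ => rfl, fun a _ h => absurd h (Nat.not_lt_zero _)⟩
    | succ k ih =>
      obtain ⟨x, hx1, hx2, hx3⟩ := ih
      let x' : Arc n m → ℝ := fun e => match e with
        | Sum.inl i => κ (Sum.inl i)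
        | Sum.inr a => if K a = true then κ (Sum.inr a) else
            if ord a.1 = k then (Sx C x a.1 + sg a.2 * f a.1 (Dx C x a.1)) / 2 else x (Sum.inr a)
      have hin : ∀ (g : Fin m), ord g ≤ k → ∀ b, x' (C.inp (g, b)) = x (C.inp (g, b)) := by
        intro g hg b
        rcases hb : C.inp (g, b) with i | ⟨h, c⟩
        · exact (hx1 i).symm
        · have h1 : ord h < ord g := hord g b h c hb
          have h2 : x' (Sum.inr (h, c)) = if K (h, c) = true then κ (Sum.inr (h, c)) else
            if ord h = k then (Sx C x h + sg c * f h (Dx C x h)) / 2 else x (Sum.inr (h, c)) := rfl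
          rw [h2]
          split_ifs with h3 h4
          · exact (hx2 _ h3).symm
          · omega
          · rfl
      have hS : ∀ g, ord g ≤ k → Sx C x' g = Sx C x g := by
        intro g hg
        unfold Sx
        rw [hin g hg, hin g hg]
      have hD : ∀ g, ord g ≤ k → Dx C x' g = Dx C x g := by
        intro g hg
        unfold Dx
        rw [hin g hg, hin g hg]
      refine ⟨x', fun _ => rfl, ?_, ?_⟩
      · intro a ha
        have h2 : x' (Sum.inr a) = if K a = true then κ (Sum.inr a) else
            if ord a.1 = k then (Sx C x a.1 + sg a.2 * f a.1 (Dx C x a.1)) / 2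
              else x (Sum.inr a) := rfl
        rw [h2, if_pos ha]
      · intro a ha hak
        have h2 : x' (Sum.inr a) = if K a = true then κ (Sum.inr a) else
            if ord a.1 = k then (Sx C x a.1 + sg a.2 * f a.1 (Dx C x a.1)) / 2
              else x (Sum.inr a) := rfl
        rw [hS a.1 (by omega), hD a.1 (by omega), h2, if_neg (by rw [ha]; decide)]
        split_ifs with h4
        · rfl
        · exact hx3 a ha (by omega)
  obtain ⟨x, hx1, hx2, hx3⟩ := key (Finset.univ.sup ord + 1)
  refine ⟨x, hx1, hx2, fun a ha => ?_⟩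
  exact hx3 a ha (Nat.lt_succ_of_le (Finset.le_sup (f := ord) (Finset.mem_univ a.1)))

/-- Stability of states in the sup norm. -/
theorem IsX.lip {C : CompCircuit n m} {K : Fin m × Bool → Bool} {κ κ' : Arc n m → ℝ}
    {Q Q' : Fin m → ℝ} {x x' : Arc n m → ℝ} (h : IsX C K κ Q x) (h' : IsX C K κ' Q' x')
    {δ : ℝ} (hδ : 0 ≤ δ) (hs : ∀ i, |κ' (Sum.inl i) - κ (Sum.inl i)| ≤ δ)
    (hc : ∀ a, K a = true → |κ' (Sum.inr a) - κ (Sum.inr a)| ≤ δ) (e : Arc n m) :
    |x' e - x e| ≤ δ + (∑ g : Fin m, |Q' g - Q g|) / 2 := by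
  have h1 := chain_bound C K (fun e => |x' e - x e|) (fun g => |Q' g - Q g| / 2)
    (fun g => by positivity) (δ := δ)
    (fun i => by
      show |x' (Sum.inl i) - x (Sum.inl i)| ≤ δ
      rw [h.src i, h'.src i]
      exact hs i)
    (fun a ha => by
      show |x' (Sum.inr a) - x (Sum.inr a)| ≤ δ
      rw [h.closed a ha, h'.closed a ha]
      exact hc a ha)
    (fun a ha => by
      show |x' (Sum.inr a) - x (Sum.inr a)| ≤ max (|x' (C.inp (a.1, false)) - x (C.inp (a.1, false))|)
        (|x' (C.inp (a.1, true)) - x (C.inp (a.1, true))|) + |Q' a.1 - Q a.1| / 2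
      rw [h.opn a ha, h'.opn a ha]
      have e1 : (Sx C x' a.1 + sg a.2 * Q' a.1) / 2 - (Sx C x a.1 + sg a.2 * Q a.1) / 2 =
          ((x' (C.inp (a.1, false)) - x (C.inp (a.1, false))) +
            (x' (C.inp (a.1, true)) - x (C.inp (a.1, true)))) / 2 +
            sg a.2 * (Q' a.1 - Q a.1) / 2 := by
        unfold Sx
        ring
      rw [e1]
      have hsg : |sg a.2 * (Q' a.1 - Q a.1)| = |Q' a.1 - Q a.1| := by
        unfold sg
        split_ifs
        · rw [one_mul]
        · rw [neg_one_mul, abs_neg]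
      set u := x' (C.inp (a.1, false)) - x (C.inp (a.1, false)) with hu
      set v := x' (C.inp (a.1, true)) - x (C.inp (a.1, true)) with hv
      have h2 : |(u + v) / 2 + sg a.2 * (Q' a.1 - Q a.1) / 2| ≤
          |(u + v) / 2| + |sg a.2 * (Q' a.1 - Q a.1) / 2| := abs_add_le _ _
      have h3 : |(u + v) / 2| ≤ max |u| |v| := by
        rw [abs_div, abs_two]
        have h4 : |u + v| ≤ |u| + |v| := abs_add_le _ _
        have h5 := le_max_left |u| |v|
        have h6 := le_max_right |u| |v|
        linarith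
      have h4 : |sg a.2 * (Q' a.1 - Q a.1) / 2| = |Q' a.1 - Q a.1| / 2 := by
        rw [abs_div, abs_two, hsg]
      linarith)
    e
  have h2 : ∑ g, |Q' g - Q g| / 2 = (∑ g : Fin m, |Q' g - Q g|) / 2 := by
    rw [Finset.sum_div]
  rw [h2] at h1
  exact h1

theorem IsX.unique {C : CompCircuit n m} {K : Fin m × Bool → Bool} {κ : Arc n m → ℝ}
    {Q : Fin m → ℝ} {x x' : Arc n m → ℝ} (h : IsX C K κ Q x) (h' : IsX C K κ Q x') : x = x' := by
  funext e
  have h1 := IsX.lip h h' le_rfl (fun i => by simp) (fun a _ => by simp) e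
  simp only [sub_self, abs_zero, Finset.sum_const_zero, zero_div, add_zero] at h1
  have h2 : x' e - x e = 0 := abs_eq_zero.1 (le_antisymm h1 (abs_nonneg _))
  linarith

/-- Bound of a state by its total offset. -/
theorem IsX.bound {C : CompCircuit n m} {K : Fin m × Bool → Bool} {κ : Arc n m → ℝ}
    {Q : Fin m → ℝ} {x : Arc n m → ℝ} (h : IsX C K κ Q x) {p δ : ℝ} (hp : 0 < p) (hδ : 0 ≤ δ)
    (hs : ∀ i, |κ (Sum.inl i)| ≤ δ) (hc : ∀ a, K a = true → |κ (Sum.inr a)| ≤ δ) (e : Arc n m) :
    |x e| ≤ δ + (m * p + off C p Q x) / 2 := by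
  have hG : ∀ y : ℝ, |G p y| ≤ |y| + p := by
    intro y
    unfold G
    rw [abs_of_nonneg (Real.sqrt_nonneg _)]
    apply Real.sqrt_le_iff.2
    refine ⟨by positivity, ?_⟩
    have h0 : 0 ≤ |y| := abs_nonneg y
    have h1 : |y| ^ 2 = y ^ 2 := sq_abs y
    nlinarith [mul_nonneg h0 hp.le]
  have h1 := chain_bound C K (fun e => |x e|) (fun g => (p + |G p (Dx C x g) - Q g|) / 2)
    (fun g => by positivity) (δ := δ)
    (fun i => by
      show |x (Sum.inl i)| ≤ δ
      rw [h.src i]
      exact hs i)
    (fun a ha => by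
      show |x (Sum.inr a)| ≤ δ
      rw [h.closed a ha]
      exact hc a ha)
    (fun a ha => by
      show |x (Sum.inr a)| ≤ max (|x (C.inp (a.1, false))|) (|x (C.inp (a.1, true))|) +
        (p + |G p (Dx C x a.1) - Q a.1|) / 2
      rw [h.opn a ha]
      have hsg : |sg a.2 * Q a.1| = |Q a.1| := by
        unfold sg
        split_ifs
        · rw [one_mul]
        · rw [neg_one_mul, abs_neg]
      have h2 : |(Sx C x a.1 + sg a.2 * Q a.1) / 2| ≤ (|Sx C x a.1| + |Q a.1|) / 2 := by
        rw [abs_div, abs_two]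
        have := abs_add_le (Sx C x a.1) (sg a.2 * Q a.1)
        rw [hsg] at this
        linarith
      have h3 : |Q a.1| ≤ |Dx C x a.1| + p + |G p (Dx C x a.1) - Q a.1| := by
        have h4 := hG (Dx C x a.1)
        have h5 : |Q a.1| ≤ |G p (Dx C x a.1)| + |G p (Dx C x a.1) - Q a.1| := by
          have := abs_sub_abs_le_abs_sub (Q a.1) (G p (Dx C x a.1))
          rw [abs_sub_comm] at this
          linarith
        linarith
      have h4 : |Sx C x a.1| + |Dx C x a.1| ≤
          2 * max (|x (C.inp (a.1, false))|) (|x (C.inp (a.1, true))|) := by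
        unfold Sx Dx
        set u := x (C.inp (a.1, false))
        set v := x (C.inp (a.1, true))
        have h5 := le_max_left |u| |v|
        have h6 := le_max_right |u| |v|
        rcases abs_cases (u + v) with h7 | h7 <;> rcases abs_cases (u - v) with h8 | h8 <;>
          rcases abs_cases u with h9 | h9 <;> rcases abs_cases v with h10 | h10 <;> linarith
      linarith)
    e
  have h2 : ∑ g, (p + |G p (Dx C x g) - Q g|) / 2 = (m * p + off C p Q x) / 2 := by
    rw [← Finset.sum_div, Finset.sum_add_distrib]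
    unfold off
    simp
  rw [h2] at h1
  exact h1

end Pool.Agent.LibCCS
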