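import Pool.Agent.LibCC.Push

/-!
Runs of comparator circuits with closed arcs, faults, real states of comparator circuits, the
smoothed absolute value.
-/

namespace Pool.Agent.LibCCS

open Pool.Agent.LibCC

variable {n m : ℕ}

/-! ### Labellings -/

/-- The bit computed by the comparator behind the arc `a` from the labelling `l`. -/
def gval (C : CompCircuit n m) (l : Arc n m → Bool) (a : Fin m × Bool) : Bool :=
  comb a.2 (l (C.inp (a.1, false))) (l (C.inp (a.1, true)))

/-- `v` is the labelling in which the source arcs and the arcs of `K` carry the bits `d` and all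
other arcs carry the bit computed by their comparator. -/
structure IsRun (C : CompCircuit n m) (K : Fin m × Bool → Bool) (d v : Arc n m → Bool) :
    Prop where
  src : ∀ i, v (Sum.inl i) = d (Sum.inl i)
  closed : ∀ a, K a = true → v (Sum.inr a) = d (Sum.inr a)
  opn : ∀ a, K a = false → v (Sum.inr a) = gval C v a

/-- Faults of a labelling: arcs outside `K` whose bit is not the bit computed by the
comparator. -/
def flt (C : CompCircuit n m) (K : Fin m × Bool → Bool) (l : Arc n m → Bool) :
    Finset (Fin m × Bool) :=
  Finset.univ.filter (fun a => K a = false ∧ l (Sum.inr a) ≠ gval C l a)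

/-! ### Real states -/

/-- Sign of the two outgoing arcs of a comparator: `+` for the disjunction. -/
def sg (c : Bool) : ℝ := if c then 1 else -1

/-- Sum of the two incoming values of a comparator. -/
def Sx (C : CompCircuit n m) (x : Arc n m → ℝ) (g : Fin m) : ℝ :=
  x (C.inp (g, false)) + x (C.inp (g, true))

/-- Difference of the two incoming values of a comparator. -/
def Dx (C : CompCircuit n m) (x : Arc n m → ℝ) (g : Fin m) : ℝ :=
  x (C.inp (g, false)) - x (C.inp (g, true))

/-- The real state with output differences `Q`: source arcs and arcs of `K` carry the constants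
`κ`, every other arc leaving `g` carries `(S ± Q g) / 2`. -/
structure IsX (C : CompCircuit n m) (K : Fin m × Bool → Bool) (κ : Arc n m → ℝ)
    (Q : Fin m → ℝ) (x : Arc n m → ℝ) : Prop where
  src : ∀ i, x (Sum.inl i) = κ (Sum.inl i)
  closed : ∀ a, K a = true → x (Sum.inr a) = κ (Sum.inr a)
  opn : ∀ a, K a = false → x (Sum.inr a) = (Sx C x a.1 + sg a.2 * Q a.1) / 2

/-- Squared change of the constants. -/
noncomputable def chg (K : Fin m × Bool → Bool) (κ κ' : Arc n m → ℝ) : ℝ :=
  (∑ i : Fin n, (κ' (Sum.inl i) - κ (Sum.inl i)) ^ 2) +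
    ∑ a : Fin m × Bool, if K a then (κ' (Sum.inr a) - κ (Sum.inr a)) ^ 2 else 0

/-! ### The smoothed absolute value -/

/-- Smoothed absolute value. -/
noncomputable def G (p y : ℝ) : ℝ := Real.sqrt (y ^ 2 + p ^ 2)

/-- Total offset of a state. -/
noncomputable def off (C : CompCircuit n m) (p : ℝ) (Q : Fin m → ℝ) (x : Arc n m → ℝ) : ℝ :=
  ∑ g : Fin m, |G p (Dx C x g) - Q g|

end Pool.Agent.LibCCS
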